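import Pool.Agent.H8.AW.Defs

/-!
# MP_821da1_nt, AllCurves: only the real points at infinity carry `k`

`KapS k pd`: `S` is a set of branches at infinity, stable under conjugation of the coefficients and
under `T ↦ ζ T`, which contains all real branches (the branches fixed by a complex conjugation
composed with a rotation); the branches in `S` carry embeddings of `k`, equivariantly.
-/

namespace Pool.Agent.H8.AS

open Finset Polynomial Pool.Agent.H72.ES Pool.Agent.H87.SA2 Pool.Agent.H8.AW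

/-- Every branch in `S` carries an embedding of `k`, compatible with the conjugations of the
coefficients and with the substitutions `T ↦ ζ T`; `S` contains the real branches. -/
structure KapS (k : Type) [Field k] {f : ℤ[X][X]} {d : ℕ} (pd : PData f d) where
  S : Finset (Fin d)
  kap : Fin d → (k →+* ℂ)
  real_mem : ∀ (i : Fin d) (ζ : ℂ), ζ ^ pd.e = 1 →
    PowerSeries.rescale ζ ((pd.x i).map (starRingEnd ℂ)) = pd.x i → i ∈ S
  gal : ∀ (σ : AA →+* ℂ), ∀ i ∈ S, ∀ j : Fin d,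
    (∀ (m : ℕ) (a : AA), (a : ℂ) = PowerSeries.coeff m (pd.x i) →
      σ a = PowerSeries.coeff m (pd.x j)) →
    j ∈ S ∧ ∀ (z : k) (a : AA), (a : ℂ) = kap i z → σ a = kap j z
  rot : ∀ (ζ : ℂ), ∀ i ∈ S, ∀ j : Fin d, ζ ^ pd.e = 1 →
    PowerSeries.rescale ζ (pd.x i) = pd.x j → j ∈ S ∧ kap j = kap i

/-- A curve all of whose real branches at infinity carry `k`, all constants bounded by `b`. -/
structure CrvS (k : Type) [Field k] (n d b : ℕ) (F : ℕ → ℕ → ℤ) where
  d4 : 4 ≤ d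
  dn : d ≤ n
  b2 : 2 ≤ b
  lead : F 0 d = 1
  le : ∀ i j, |F i j| ≤ (b : ℤ)
  irr : Irreducible (FQ d F)
  pd : PData (fI d F) d
  e_le : pd.e ≤ d.factorial
  q_le : pd.q ≤ b
  R_le : pd.R ≤ b
  kp : KapS k pd
  bez : ∃ (u v : ℤ[X][X]) (c : ℤ[X]), c ≠ 0 ∧ u * fI d F + v * derivative (fI d F) = C c ∧
    c.natDegree ≤ 2 * d * d ∧ ∀ i, |c.coeff i| ≤ (b : ℤ)

/-- An integer point above the threshold `b^c` on a curve with `k` at the real points at infinity, on
a branch of type `τ`. -/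
def ExcS (k : Type) [Field k] (τ : k →+* ℝ) (n c : ℕ) (x y : ℤ) : Prop :=
  ∃ (d b : ℕ) (F : ℕ → ℕ → ℤ) (Q : CrvS k n d b F) (i : Fin d) (T : ℂ),
    ev d F x y = 0 ∧ ((Q.pd.q : ℂ) * T) ^ Q.pd.e * (x : ℂ) = 1 ∧
    HasSum (fun m => PowerSeries.coeff m (Q.pd.x i) * T ^ m) ((y : ℂ) / (x : ℂ)) ∧
    i ∈ Q.kp.S ∧ Q.kp.kap i = Complex.ofRealHom.comp τ ∧ (b : ℝ) ^ c ≤ |(x : ℝ)|

end Pool.Agent.H8.AS
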