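import Pool.Agent.H8.AS.Defs
import Pool.Agent.H52.AC.FIB
import Pool.Agent.H52.AC.CEL

/-!
# MP_821da1_nt, AllCurves: pairs of branches carrying the same embedding of `k`, real version

Port of `H52/AC/FIB.lean`, `CEL.lean`, `PRM.lean` (`exists_conj`) to `KapS`.
-/

namespace Pool.Agent.H8.AS

open Finset Polynomial Pool.Agent.H87.SA2 Pool.Agent.H8.AW Pool.Agent.H52.AC

/-- the trivial family for the field `ℚ` -/
noncomputable def kapQ {f : ℤ[X][X]} {d : ℕ} (pd : PData f d) : Kap ℚ pd where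
  kap _ := algebraMap ℚ ℂ
  gal σ i j _ z a ha := by
    have h1 : a = algebraMap ℚ AA z := Subtype.ext ha
    rw [h1]
    exact DFunLike.congr_fun (RingHom.ext_rat (σ.comp (algebraMap ℚ AA)) (algebraMap ℚ ℂ)) z
  rot _ _ _ _ _ := rfl

/-- forget the field `k` -/
noncomputable def CrvS.toQ {k : Type} [Field k] {n d b : ℕ} {F : ℕ → ℕ → ℤ} (C : CrvS k n d b F) :
    CrvA ℚ n d b F where
  d4 := C.d4
  dn := C.dn
  b2 := C.b2
  lead := C.lead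
  le := C.le
  irr := C.irr
  pd := C.pd
  e_le := C.e_le
  q_le := C.q_le
  R_le := C.R_le
  kp := kapQ C.pd
  bez := C.bez

open Classical in
/-- the pairs of branches carrying the same embedding of `k` -/
noncomputable def PPS {k : Type} [Field k] {f1 f2 : ℤ[X][X]} {d1 d2 : ℕ} {pd1 : PData f1 d1}
    {pd2 : PData f2 d2} (kp1 : KapS k pd1) (kp2 : KapS k pd2) : Finset (Fin d1 × Fin d2) :=
  (kp1.S ×ˢ kp2.S).filter fun p => kp1.kap p.1 = kp2.kap p.2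

theorem mem_PPS {k : Type} [Field k] {f1 f2 : ℤ[X][X]} {d1 d2 : ℕ} {pd1 : PData f1 d1}
    {pd2 : PData f2 d2} (kp1 : KapS k pd1) (kp2 : KapS k pd2) (p : Fin d1 × Fin d2) :
    p ∈ PPS kp1 kp2 ↔ (p.1 ∈ kp1.S ∧ p.2 ∈ kp2.S) ∧ kp1.kap p.1 = kp2.kap p.2 := by
  classical
  unfold PPS
  rw [mem_filter, mem_product]

theorem exists_conjS {k : Type} [Field k] [NumberField k] {f : ℤ[X][X]} {d : ℕ} {pd : PData f d}
    (kp : KapS k pd) : ∃ c : Fin d → Fin d, (∀ i, c (c i) = i) ∧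
      (∀ i m, PowerSeries.coeff m (pd.x (c i)) =
        (starRingEnd ℂ) (PowerSeries.coeff m (pd.x i))) ∧
      ∀ i ∈ kp.S, c i ∈ kp.S ∧ ∀ z, kp.kap (c i) z = (starRingEnd ℂ) (kp.kap i z) := by
  obtain ⟨σ, hσ⟩ : ∃ σ : AA →+* ℂ, ∀ a : AA, σ a = (starRingEnd ℂ) (a : ℂ) :=
    ⟨(starRingEnd ℂ).comp (algebraMap AA ℂ), fun a => rfl⟩
  obtain ⟨π, hπ⟩ := perm_gal pd σ
  have h1 : ∀ i m, PowerSeries.coeff m (pd.x (π i)) =
      (starRingEnd ℂ) (PowerSeries.coeff m (pd.x i)) := by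
    intro i m
    have h2 := hπ i m ⟨PowerSeries.coeff m (pd.x i), coeff_mem pd i m⟩ rfl
    rw [hσ] at h2
    exact h2.symm
  refine ⟨π, fun i => ?_, h1, fun i hi => ?_⟩
  · apply pd.x_inj
    ext m
    rw [h1, h1, Complex.conj_conj]
  · obtain ⟨h3, h4⟩ := kp.gal σ i hi (π i) (hπ i)
    refine ⟨h3, fun z => ?_⟩
    have h2 := h4 z ⟨kp.kap i z, kap_mem (kp.kap i) z⟩ rfl
    rw [hσ] at h2
    exact h2.symm

private lemma fib_liftS {k : Type} [Field k] [NumberField k] (φ ψ : k →+* ℂ) :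
    ∃ (φ0 : k →+* AA) (σ : AA →+* ℂ), (∀ z, ((φ0 z : AA) : ℂ) = φ z) ∧ ∀ z, σ (φ0 z) = ψ z := by
  let φ0 : k →+* AA := φ.codRestrict AA.toSubring (fun z => kap_mem φ z)
  let _i : Algebra k AA := φ0.toAlgebra
  let _i : Algebra k ℂ := ψ.toAlgebra
  have : IsScalarTower ℚ k AA := IsScalarTower.of_algebraMap_eq' (Subsingleton.elim _ _)
  have : Algebra.IsAlgebraic ℚ AA := algebraicClosure.isAlgebraic ℚ ℂ
  have : Algebra.IsAlgebraic k AA := Algebra.IsAlgebraic.tower_top (K := ℚ) k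
  let σ : AA →ₐ[k] ℂ := IsAlgClosed.lift
  refine ⟨φ0, σ.toRingHom, fun z => rfl, fun z => ?_⟩
  exact σ.commutes z

open Classical in
theorem fib_leS {k : Type} [Field k] [NumberField k] {f : ℤ[X][X]} {d : ℕ} {pd : PData f d}
    (kp : KapS k pd) (φ ψ : k →+* ℂ) :
    (kp.S.filter fun i => kp.kap i = φ).card ≤ (kp.S.filter fun i => kp.kap i = ψ).card := by
  obtain ⟨φ0, σ, h0, h1⟩ := fib_liftS φ ψ
  obtain ⟨π, hπ⟩ := perm_gal pd σ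
  refine Finset.card_le_card_of_injOn π (fun i hi => ?_) (fun i _ j _ h => π.injective h)
  rw [mem_coe, mem_filter] at hi ⊢
  obtain ⟨hiS, hi⟩ := hi
  obtain ⟨h3, h4⟩ := kp.gal σ i hiS (π i) (hπ i)
  refine ⟨h3, ?_⟩
  apply RingHom.ext
  intro z
  have h2 := h4 z (φ0 z) (by rw [h0, hi])
  rw [← h2, h1]

theorem card_PPS {k : Type} [Field k] [NumberField k] {f1 f2 : ℤ[X][X]} {d1 d2 : ℕ}
    {pd1 : PData f1 d1} {pd2 : PData f2 d2} (kp1 : KapS k pd1) (kp2 : KapS k pd2) :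
    (PPS kp1 kp2).card * Module.finrank ℚ k ≤ d1 * d2 := by
  classical
  obtain ⟨φ₀⟩ : Nonempty (k →+* ℂ) := inferInstance
  obtain ⟨N2, hN2⟩ : ∃ N2, N2 = (kp2.S.filter fun j => kp2.kap j = φ₀).card := ⟨_, rfl⟩
  have h1 : ∀ φ : k →+* ℂ, (kp2.S.filter fun j => kp2.kap j = φ).card = N2 := by
    intro φ
    rw [hN2]
    exact le_antisymm (fib_leS kp2 φ φ₀) (fib_leS kp2 φ₀ φ)
  have h2 : kp2.S.card = Module.finrank ℚ k * N2 := by
    have h3 := Finset.card_eq_sum_card_fiberwise (f := kp2.kap) (s := kp2.S)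
      (t := (univ : Finset (k →+* ℂ))) (fun _ _ => mem_univ _)
    rw [h3, Finset.sum_congr rfl (fun φ _ => h1 φ), sum_const, card_univ,
      NumberField.Embeddings.card k ℂ, smul_eq_mul]
  have h4 : (PPS kp1 kp2).card = kp1.S.card * N2 := by
    have h5 : (PPS kp1 kp2).card =
        ∑ i ∈ kp1.S, (kp2.S.filter fun j => kp2.kap j = kp1.kap i).card := by
      unfold PPS
      rw [Finset.card_filter, Finset.sum_product]
      apply Finset.sum_congr rfl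
      intro i _
      rw [Finset.card_filter]
      apply Finset.sum_congr rfl
      intro j _
      by_cases hij : kp1.kap i = kp2.kap j
      · rw [if_pos hij, if_pos hij.symm]
      · rw [if_neg hij, if_neg (fun h => hij h.symm)]
    rw [h5, Finset.sum_congr rfl (fun i _ => h1 (kp1.kap i)), sum_const, smul_eq_mul]
  have h6 : kp1.S.card ≤ d1 := (card_le_univ _).trans (by rw [Fintype.card_fin])
  have h7 : kp2.S.card ≤ d2 := (card_le_univ _).trans (by rw [Fintype.card_fin])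
  rw [h4, mul_assoc, mul_comm N2, ← h2]
  exact Nat.mul_le_mul h6 h7

theorem cell_zeroS {k : Type} [Field k] [NumberField k] {f1 f2 : ℤ[X][X]} {d1 d2 : ℕ}
    {pd1 : PData f1 d1} {pd2 : PData f2 d2} (kp1 : KapS k pd1) (kp2 : KapS k pd2) (D1 D2 : ℕ)
    (A : ℕ → ℕ → ℕ → ℕ → ℤ) (K L : ℕ)
    (h : ∀ p ∈ PPS kp1 kp2,
      ‖Vc D1 D2 A pd1.q pd1.e pd2.q pd2.e (pd1.x p.1) (pd2.x p.2) K L‖ < 1) :
    ∀ p ∈ PPS kp1 kp2, ∀ r < pd1.e, ∀ s < pd2.e,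
      Bc D1 D2 A pd1.q pd1.e pd2.q pd2.e (pd1.x p.1) (pd2.x p.2) (pd1.e * K + r)
        (pd2.e * L + s) = 0 := by
  classical
  have hz : ∀ p : {p // p ∈ PPS kp1 kp2},
      Vc D1 D2 A pd1.q pd1.e pd2.q pd2.e (pd1.x p.1.1) (pd2.x p.1.2) K L = 0 := by
    refine liou_zero (fun p : {p // p ∈ PPS kp1 kp2} =>
      Vc D1 D2 A pd1.q pd1.e pd2.q pd2.e (pd1.x p.1.1) (pd2.x p.1.2) K L) ?_ ?_ ?_
    · intro p
      exact Vc_int (pd1.integral p.1.1) (pd2.integral p.1.2) D1 D2 A K L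
    · intro σ p
      obtain ⟨π1, hπ1⟩ := perm_gal pd1 σ
      obtain ⟨π2, hπ2⟩ := perm_gal pd2 σ
      obtain ⟨⟨hp1, hp2⟩, h0⟩ := (mem_PPS kp1 kp2 p.1).1 p.2
      obtain ⟨g1, g1'⟩ := kp1.gal σ p.1.1 hp1 (π1 p.1.1) (hπ1 p.1.1)
      obtain ⟨g2, g2'⟩ := kp2.gal σ p.1.2 hp2 (π2 p.1.2) (hπ2 p.1.2)
      have hmem : ((π1 p.1.1, π2 p.1.2) : Fin d1 × Fin d2) ∈ PPS kp1 kp2 := by
        rw [mem_PPS]
        refine ⟨⟨g1, g2⟩, ?_⟩
        apply RingHom.ext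
        intro z
        have h1 : σ (⟨kp1.kap p.1.1 z, kap_mem _ z⟩ : AA) = kp1.kap (π1 p.1.1) z :=
          g1' z _ rfl
        have h2 : σ (⟨kp1.kap p.1.1 z, kap_mem _ z⟩ : AA) = kp2.kap (π2 p.1.2) z :=
          g2' z _ (by rw [← h0])
        exact h1.symm.trans h2
      exact ⟨⟨(π1 p.1.1, π2 p.1.2), hmem⟩, fun a ha =>
        Vc_gal σ pd1.q pd1.e pd2.q pd2.e (coeff_mem pd1 p.1.1) (coeff_mem pd2 p.1.2)
          (hπ1 p.1.1) (hπ2 p.1.2) D1 D2 A K L a ha⟩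
    · intro p
      exact h p.1 p.2
  intro p hp
  refine fourier_zero pd1.e_pos pd2.e_pos (fun r s =>
    Bc D1 D2 A pd1.q pd1.e pd2.q pd2.e (pd1.x p.1) (pd2.x p.2) (pd1.e * K + r)
        (pd2.e * L + s)) ?_
  intro ζ ξ hζ hξ
  obtain ⟨ρ1, hρ1⟩ := perm_rot pd1 hζ
  obtain ⟨ρ2, hρ2⟩ := perm_rot pd2 hξ
  obtain ⟨⟨hp1, hp2⟩, h00⟩ := (mem_PPS kp1 kp2 p).1 hp
  obtain ⟨g1, g1'⟩ := kp1.rot ζ p.1 hp1 (ρ1 p.1) hζ (hρ1 p.1)
  obtain ⟨g2, g2'⟩ := kp2.rot ξ p.2 hp2 (ρ2 p.2) hξ (hρ2 p.2)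
  have hmem : ((ρ1 p.1, ρ2 p.2) : Fin d1 × Fin d2) ∈ PPS kp1 kp2 := by
    rw [mem_PPS]
    refine ⟨⟨g1, g2⟩, ?_⟩
    change kp1.kap (ρ1 p.1) = kp2.kap (ρ2 p.2)
    rw [g1', g2']
    exact h00
  have h0 := hz ⟨(ρ1 p.1, ρ2 p.2), hmem⟩
  change Vc D1 D2 A pd1.q pd1.e pd2.q pd2.e (pd1.x (ρ1 p.1)) (pd2.x (ρ2 p.2)) K L = 0 at h0
  rw [← hρ1 p.1, ← hρ2 p.2, Vc_rot hζ hξ] at h0
  exact h0

end Pool.Agent.H8.AS
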